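import Pool.Agent.N26.GI.Fin

/-!
# MP_0db605_an, Q1: the atomic condition and the exposed condition agree for one-dimensional
integrands, in every dimension (partial answer: the case `k = 1`, all `n`)
-/

set_option autoImplicit false

namespace Pool.Agent.Results.MP_0db605_an.OneDimensionalIntegrands

open N26.GI

/-- For `k = 1` and every `n`, a `1`-integrand on `ℝⁿ` satisfies the atomic condition if and only
if it satisfies the exposed condition, and if and only if it is strictly convex. -/
theorem result (n : ℕ) (F : Submodule ℝ (EuclideanSpace ℝ (Fin n)) → ℝ)
    (hF : IsIntegrand n 1 F) :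
    (AC n 1 F ↔ EC n 1 F) ∧ (AC n 1 F ↔ StrictlyConvex n F) :=
  main F hF

end Pool.Agent.Results.MP_0db605_an.OneDimensionalIntegrands
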